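import Pool.Agent.Helper15.FST.St
import Pool.Agent.Helper52.GF.Mxc

/-! FIRST, row [RFC]: every class of entries has a robust subclass with numbers: the codimensions of the hulls of the
type-labels, their least entropies and the prefix volumes are constant, for all windows and countably many levels. -/

set_option autoImplicit false

namespace Pool.Agent.Helper3.FST

open Finset Filter Topology Matrix Pool.Agent.Helper69.RK Pool.Agent.Helper31.EC Pool.Agent.Helper31.EC.Sp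
open Pool.Agent.Helper40.EL Pool.Agent.Helper89.LX Pool.Agent.Helper84.MT
open Pool.Agent.Helper49.MD Pool.Agent.Helper36.AM
open Pool.Agent.Helper29.MX
open Pool.Agent.Helper15.FST
open Pool.Agent.Helper52.GF (Km Pu Ku UnCl isK isM_isMc RbK RbU RbJ RbJU KC KD KV stage_k stage_j kvh kvi
  mx_H_attained mx_H_le mx_volKO mx_volP pty XI pql_pt bo_pt iv c0)

noncomputable section

variable {S T : Sp} {N : ℕ} {E : ℕ → ℕ} {ι : Type}

/-- the identity of the kind of systems -/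
def idM (N : ℕ) (ι : Type) : Km (KM N ι) (KM N ι) where
  f := fun _ x => x
  im := fun _ _ _ _ _ => rfl

/-- change of the unit -/
def kuM (N : ℕ) (ι : Type) : Ku (KM N ι) where
  u := fun _ _ _ x => x
  im := fun _ _ _ _ _ _ _ => rfl

theorem isK_kuM [Encodable ι] {e : ℝ} (he : 0 < e) (h1 : e ≤ 1) : UnCl (kuM N ι) e he (isK E (idM N ι)) := by
  rintro S x ⟨s, hs⟩
  exact ⟨s.trn e he h1, hs⟩

/-- least entropies of type-labels -/
theorem HL_eq [Encodable ι] [Finite ι] {s : MSys S N E ι} {x : (KM N ι).Ob S} (hs : Giv s x)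
    {Y : ℕ → Pool.Agent.Helper52.GF.Pt (KM N ι) (isK E (idM N ι))} (e c : ℝ) :
    HL s e c = kvh (idM N ι) (pty E (idM N ι) Y (Sum.inr none) none (e, 0)) (Pu.bo _) (Pu.bo _) c x := by
  have hs' : Giv s ((idM N ι).o x) := hs
  obtain ⟨l, hl, h1⟩ := mx_H_attained hs' bo_pt bo_pt e c
    (pty E (idM N ι) Y (Sum.inr none) none (e, 0)) (pql_pt hs e)
  have h2 : ∀ l : Lab S, TLb s c l → kvh (idM N ι) (pty E (idM N ι) Y (Sum.inr none) none (e, 0)) (Pu.bo _) (Pu.bo _) c x ≤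
      H (up1 l (s.Q.dg e)) := fun l hl => mx_H_le hs' bo_pt bo_pt e c
        (pty E (idM N ι) Y (Sum.inr none) none (e, 0)) (pql_pt hs e) ((tlb_iff s c l).mpr hl)
  have h3 : kvh (idM N ι) (pty E (idM N ι) Y (Sum.inr none) none (e, 0)) (Pu.bo _) (Pu.bo _) c x ∈
      lowerBounds {v | ∃ l : Lab S, TLb s c l ∧ v = H (up1 l (s.Q.dg e))} := by
    rintro v ⟨l', hl', rfl⟩
    exact h2 l' hl'
  exact le_antisymm (csInf_le ⟨_, h3⟩ ⟨l, (tlb_iff s c l).mp hl, h1.symm⟩)
    (le_csInf ⟨_, l, (tlb_iff s c l).mp hl, rfl⟩ h3)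

/-- **[RFC]** robust subclasses with numbers -/
theorem row_rfc (N : ℕ) : ROW_RFC N := by
  intro A C hC hst m v g r i j P hg hP hE L hL
  have hPK : ∀ S x, P S x → isK (lin g) (idM N (Fin r)) S x := by
    intro S x hx
    obtain ⟨s, hs, _⟩ := hE S x hx
    exact isM_isMc ⟨s, hs⟩
  -- enumeration of the levels
  obtain ⟨u, hu⟩ : ∃ u : ℕ → ℝ, insert 1 (L ∩ Set.Ioc 0 1) = Set.range u :=
    Set.Countable.exists_eq_range ((hL.mono Set.inter_subset_left).insert 1) (Set.insert_nonempty _ _)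
  have hu0 : ∀ j, 0 < u j ∧ u j ≤ 1 := by
    intro j
    have h1 : u j ∈ insert 1 (L ∩ Set.Ioc 0 1) := by
      rw [hu]
      exact Set.mem_range_self j
    rcases h1 with h1 | h1
    · rw [h1]
      exact ⟨one_pos, le_rfl⟩
    · exact h1.2
  have hlv : ∀ e ∈ L, 0 < e → e ≤ 1 → ∃ q, u q = e := by
    intro e he h0 h1
    have h2 : e ∈ Set.range u := by
      rw [← hu]
      exact Or.inr ⟨he, h0, h1⟩
    exact h2
  -- the two stages
  obtain ⟨P₁, c1, l1, ⟨K1, k1⟩, t1⟩ := stage_k (idM N (Fin r)) hP hPK (fun _ => pty (lin g) (idM N (Fin r))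
    (fun _ => Pool.Agent.Helper52.GF.ptk (lin g) (idM N (Fin r)) (Sum.inr none) (0, 0)) (Sum.inr none) none (0, 0))
    (fun _ => Pu.bo _) (fun _ => Pu.bo _) (kuM N (Fin r)) u (fun j => (hu0 j).1)
    fun j => isK_kuM (hu0 j).1 (hu0 j).2
  obtain ⟨P₂, c2, l2, _, t2⟩ := stage_j (idM N (Fin r)) c1 (fun S x hx => hPK S x (l1 S x hx))
    (fun _ => Pu.bo _) (fun _ => Pu.bo _) (kuM N (Fin r)) u (fun j => (hu0 j).1)
    fun j => isK_kuM (hu0 j).1 (hu0 j).2
  choose F1 f1 using t1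
  choose F2 f2 using t2
  classical
  -- the index of a level
  let q : ℝ → ℕ := fun e => if h : ∃ q, u q = e then h.choose else 0
  have hq : ∀ e ∈ L, 0 < e → e ≤ 1 → u (q e) = e := by
    intro e he h0 h1
    have h2 := hlv e he h0 h1
    show u (if h : ∃ q, u q = e then h.choose else 0) = e
    rw [dif_pos h2]
    exact h2.choose_spec
  refine ⟨P₂, fun e c => e * (N - ⨅ D : ℕ, (F1 (q e)).v D 0 (c / e)),
    fun e c => K1.H 0 (Sum.inr none) none (e, 0) c,
    fun e c l => if h : l ≤ N then ⨅ D : ℕ, (F2 (q e)).v ⟨l, Fin.castLE h⟩ D 0 (c / e) else 0,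
    fun S x hx => l1 S x (l2 S x hx), ⟨c2, fun S x hx => hE S x (l1 S x (l2 S x hx)), ?_, ?_, ?_⟩⟩
  · intro S s hs e he h0 h1 c hc hc'
    have hqe := hq e he h0 h1
    have h2 : volKO (s.trn e h0 h1) (rbot (S.chg S.tr e h0)) (c / e) = ⨅ D : ℕ, (F1 (q e)).v D 0 (c / e) := by
      have h4 : ∀ (n : ℕ) (h0' : 0 < e) (hn : u n = e), volKO (s.trn e h0 h1) (rbot (S.chg S.tr e h0)) (c / e) =
          ⨅ D : ℕ, (F1 n).v D 0 (c / e) := by
        intro n h0' hn
        subst hn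
        have h5 := f1 n S (ob s) (l2 S _ hs.2)
        unfold volKO
        refine congrArg _ (funext fun D => ?_)
        rw [← h5.pv D 0 (c / u n)]
        exact Pool.Agent.Helper52.GF.mx_volK_kvm (m := idM N (Fin r)) (s := s.trn (u n) h0 h1)
          (x := (kuM N (Fin r)).o (u n) h0 (ob s)) (Giv_ob s) bo_pt bo_pt D (c / u n)
      exact h4 (q e) h0 hqe
    unfold UL
    rw [dif_pos ⟨h0, h1⟩, h2]
  · intro S s hs e he h0 h1 c hc hc'
    rw [HL_eq (Giv_ob s) (Y := fun _ => pty (lin g) (idM N (Fin r))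
    (fun _ => Pool.Agent.Helper52.GF.ptk (lin g) (idM N (Fin r)) (Sum.inr none) (0, 0)) (Sum.inr none) none (0, 0)) e c]
    have h3 := k1 S (ob s) (l2 S _ hs.2)
    have e1 := h3.pa 0 (Sum.inr none) none (e, 0) c
    have e2 := h3.pb (Sum.inr none) none (e, 0)
    show iv _ (c0 _) (ob s) - kvi _ _ _ _ c (ob s) = _
    rw [e1, e2]
    rfl
  · intro S s hs e he h0 h1 c hc hc' l hl
    show _ = dite _ _ _
    rw [dif_pos hl]
    have hqe := hq e he h0 h1
    have h4 : ∀ (n : ℕ) (h0' : 0 < e) (hn : u n = e), volP (s.trn e h0 h1) (rbot (S.chg S.tr e h0)) (c / e) hl =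
        ⨅ D : ℕ, (F2 n).v ⟨l, Fin.castLE hl⟩ D 0 (c / e) := by
      intro n h0' hn
      subst hn
      have h5 := f2 n S (ob s) hs.2
      rw [Pool.Agent.Helper52.GF.volP_eq]
      unfold volKO
      refine congrArg _ (funext fun D => ?_)
      rw [← (h5 ⟨l, Fin.castLE hl⟩ D 0 (c / u n)).1]
      exact Pool.Agent.Helper52.GF.mx_volK_kvm (m := (Pool.Agent.Helper52.GF.cooM (Fin r) (Fin.castLE hl)).cm
        (idM N (Fin r))) (s := Pool.Agent.Helper18.PRM.scrd (Fin.castLE hl) (s.trn (u n) h0 h1))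
        (x := (kuM N (Fin r)).o (u n) h0 (ob s)) (Pool.Agent.Helper52.GF.giv_scrd (Giv_ob s) (Fin.castLE hl))
        bo_pt bo_pt D (c / u n)
    exact h4 (q e) h0 hqe

end

end Pool.Agent.Helper3.FST
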